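import Pool.Agent.H10.CD.Exc

/-!
# [CD] The models of the classical affine types
-/

set_option autoImplicit false

namespace Pool.Agent.H98.CD

open Pool.Agent.H52.CD Pool.Agent.H52.DT Pool.Agent.H10.CD

theorem cs_nonneg {l : ℕ} (h : 2 ≤ l) : 0 ≤ cs l := by
  rw [← cos_cs]
  have h1 : (2 : ℝ) ≤ l := by exact_mod_cast h
  refine Real.cos_nonneg_of_neg_pi_div_two_le_of_le ?_ ?_
  · have h2 : 0 ≤ Real.pi / l := div_nonneg Real.pi_pos.le (by linarith)
    have := Real.pi_pos
    linarith
  · exact div_le_div_of_nonneg_left Real.pi_pos.le (by norm_num) h1

/-- some of the neighbours -/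
theorem sub_le {n : ℕ} {L : ℕ → ℕ → ℕ} {v : ℕ → ℝ} (h2 : ∀ x y, x < y → y < n → 2 ≤ L x y)
    (hv : ∀ x, x < n → 0 < v x) {x : ℕ} (hx : x < n) (S : Finset ℕ) (hS : ∀ y ∈ S, y < n ∧ y ≠ x) :
    ∑ y ∈ S, cs (sy L x y) * v y ≤ ∑ y ∈ (Finset.range n).erase x, Real.cos (Real.pi / sy L x y) * v y := by
  simp only [cos_cs]
  refine Finset.sum_le_sum_of_subset_of_nonneg (fun y hy => ?_) (fun y hy _ => ?_)
  · obtain ⟨h1, h3⟩ := hS y hy
    exact Finset.mem_erase.2 ⟨h3, Finset.mem_range.2 h1⟩
  · obtain ⟨h1, h3⟩ := Finset.mem_erase.1 hy
    have h4 := Finset.mem_range.1 h3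
    refine mul_nonneg (cs_nonneg ?_) (hv y h4).le
    unfold sy
    split_ifs with h5
    · exact h2 x y h5 h4
    · exact h2 y x (by omega) hx

theorem mdl_of {n : ℕ} {L : ℕ → ℕ → ℕ} {v : ℕ → ℝ} (h2 : ∀ x y, x < y → y < n → 2 ≤ L x y)
    (hv : ∀ x, x < n → 0 < v x)
    (h : ∀ x, x < n → ∃ S : Finset ℕ, (∀ y ∈ S, y < n ∧ y ≠ x) ∧ v x ≤ ∑ y ∈ S, cs (sy L x y) * v y) : Mdl n L v where
  two := h2
  pos := hv
  le x hx := by
    obtain ⟨S, hS, hle⟩ := h x hx
    exact hle.trans (sub_le h2 hv hx S hS)

theorem s2 : √2 / 2 * √2 = 1 := by
  have h2 : √2 * √2 = 2 := Real.mul_self_sqrt (by norm_num)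
  linarith

theorem mA (n : ℕ) (hn : 3 ≤ n) : Mdl n (Cl.tA.lab n) (fun _ => 1) := by
  refine mdl_of (fun x y _ _ => ?_) (fun _ _ => one_pos) fun x hx => ?_
  · simp only [Cl.lab]
    split_ifs <;> first | contradiction | omega
  · rcases Nat.eq_zero_or_pos x with h0 | h0
    · refine ⟨{1, n - 1}, ?_, ?_⟩
      · simp only [Finset.mem_insert, Finset.mem_singleton]
        omega
      · rw [Finset.sum_pair (by omega)]
        have e1 : sy (Cl.tA.lab n) x 1 = 3 := by
          simp only [sy, Cl.lab]
          split_ifs <;> first | contradiction | omega
        have e2 : sy (Cl.tA.lab n) x (n - 1) = 3 := by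
          simp only [sy, Cl.lab]
          split_ifs <;> first | contradiction | omega
        rw [e1, e2, cs3]
        norm_num
    · rcases Nat.lt_or_ge (x + 1) n with h1 | h1
      · refine ⟨{x - 1, x + 1}, ?_, ?_⟩
        · simp only [Finset.mem_insert, Finset.mem_singleton]
          omega
        · rw [Finset.sum_pair (by omega)]
          have e1 : sy (Cl.tA.lab n) x (x - 1) = 3 := by
            simp only [sy, Cl.lab]
            split_ifs <;> first | contradiction | omega
          have e2 : sy (Cl.tA.lab n) x (x + 1) = 3 := by
            rw [sy, if_pos (by omega)]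
            change (if x + 1 = x + 1 ∨ (x = 0 ∧ x + 1 + 1 = n) then 3 else 2) = 3
            exact if_pos (Or.inl rfl)
          rw [e1, e2, cs3]
          norm_num
      · refine ⟨{0, x - 1}, ?_, ?_⟩
        · simp only [Finset.mem_insert, Finset.mem_singleton]
          omega
        · rw [Finset.sum_pair (by omega)]
          have e1 : sy (Cl.tA.lab n) x 0 = 3 := by
            rw [sy, if_neg (by omega)]
            change (if 0 + 1 = x ∨ (0 = 0 ∧ x + 1 = n) then 3 else 2) = 3
            exact if_pos (Or.inr ⟨rfl, by omega⟩)
          have e2 : sy (Cl.tA.lab n) x (x - 1) = 3 := by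
            simp only [sy, Cl.lab]
            split_ifs <;> first | contradiction | omega
          rw [e1, e2, cs3]
          norm_num

/-- the vector of affine `C` -/
noncomputable def vC (n x : ℕ) : ℝ := if x = 0 ∨ x + 1 = n then √2 else 2

theorem mC (n : ℕ) (hn : 4 ≤ n) : ∃ v, Mdl n (Cl.tC.lab n) v := by
  have hs : (0 : ℝ) < √2 := by positivity
  refine ⟨vC n, mdl_of (fun x y _ _ => ?_) (fun x _ => ?_) fun x hx => ?_⟩
  · simp only [Cl.lab]
    split_ifs <;> first | contradiction | omega
  · simp only [vC]
    split_ifs
    · exact hs
    · exact two_pos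
  · -- one side contributes `1`
    have hl : 0 < x → 1 ≤ cs (sy (Cl.tC.lab n) x (x - 1)) * vC n (x - 1) ∨ x + 1 = n := by
      intro h0
      by_cases h1 : x + 1 = n
      · exact Or.inr h1
      · left
        by_cases h2 : x = 1
        · have e1 : sy (Cl.tC.lab n) x (x - 1) = 4 := by
            simp only [sy, Cl.lab]
            split_ifs <;> first | contradiction | omega
          have e2 : vC n (x - 1) = √2 := if_pos (by omega)
          rw [e1, e2, cs4, s2]
        · have e1 : sy (Cl.tC.lab n) x (x - 1) = 3 := by
            simp only [sy, Cl.lab]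
            split_ifs <;> first | contradiction | omega
          have e2 : vC n (x - 1) = 2 := if_neg (by omega)
          rw [e1, e2, cs3]
          norm_num
    have hr : 0 < x → x + 1 < n → 1 ≤ cs (sy (Cl.tC.lab n) x (x + 1)) * vC n (x + 1) := by
      intro h0 h1
      by_cases h2 : x + 2 = n
      · have e1 : sy (Cl.tC.lab n) x (x + 1) = 4 := by
          simp only [sy, Cl.lab]
          split_ifs <;> first | contradiction | omega
        have e2 : vC n (x + 1) = √2 := if_pos (by omega)
        rw [e1, e2, cs4, s2]
      · have e1 : sy (Cl.tC.lab n) x (x + 1) = 3 := by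
          simp only [sy, Cl.lab]
          split_ifs <;> first | contradiction | omega
        have e2 : vC n (x + 1) = 2 := if_neg (by omega)
        rw [e1, e2, cs3]
        norm_num
    rcases Nat.eq_zero_or_pos x with h0 | h0
    · refine ⟨{1}, ?_, ?_⟩
      · simp only [Finset.mem_singleton]
        omega
      · rw [Finset.sum_singleton]
        have e1 : sy (Cl.tC.lab n) x 1 = 4 := by
          simp only [sy, Cl.lab]
          split_ifs <;> first | contradiction | omega
        have e2 : vC n x = √2 := if_pos (by omega)
        have e3 : vC n 1 = 2 := if_neg (by omega)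
        rw [e1, e2, e3, cs4]
        linarith
    · rcases Nat.lt_or_ge (x + 1) n with h1 | h1
      · refine ⟨{x - 1, x + 1}, ?_, ?_⟩
        · simp only [Finset.mem_insert, Finset.mem_singleton]
          omega
        · rw [Finset.sum_pair (by omega)]
          have e2 : vC n x = 2 := if_neg (by omega)
          rw [e2]
          have h2 := (hl h0).resolve_right (by omega)
          have h3 := hr h0 h1
          linarith
      · refine ⟨{x - 1}, ?_, ?_⟩
        · simp only [Finset.mem_singleton]
          omega
        · rw [Finset.sum_singleton]
          have e1 : sy (Cl.tC.lab n) x (x - 1) = 4 := by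
            simp only [sy, Cl.lab]
            split_ifs <;> first | contradiction | omega
          have e2 : vC n x = √2 := if_pos (by omega)
          have e3 : vC n (x - 1) = 2 := if_neg (by omega)
          rw [e1, e2, e3, cs4]
          linarith

/-- the vector of affine `B` -/
noncomputable def vB (n x : ℕ) : ℝ := if x = 0 then √2 else if x + 2 = n ∨ x + 1 = n then 1 else 2

theorem mB (n : ℕ) (hn : 4 ≤ n) : ∃ v, Mdl n (Cl.tB.lab n) v := by
  have hs : (0 : ℝ) < √2 := by positivity
  refine ⟨vB n, mdl_of (fun x y _ _ => ?_) (fun x _ => ?_) fun x hx => ?_⟩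
  · simp only [Cl.lab]
    split_ifs <;> first | contradiction | omega
  · simp only [vB]
    split_ifs
    · exact hs
    · exact one_pos
    · exact two_pos
  · have hl : 0 < x → x + 3 ≤ n → 1 ≤ cs (sy (Cl.tB.lab n) x (x - 1)) * vB n (x - 1) := by
      intro h0 h1
      by_cases h2 : x = 1
      · have e1 : sy (Cl.tB.lab n) x (x - 1) = 4 := by
          simp only [sy, Cl.lab]
          split_ifs <;> first | contradiction | omega
        have e2 : vB n (x - 1) = √2 := if_pos (by omega)
        rw [e1, e2, cs4, s2]
      · have e1 : sy (Cl.tB.lab n) x (x - 1) = 3 := by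
          simp only [sy, Cl.lab]
          split_ifs <;> first | contradiction | omega
        have e2 : vB n (x - 1) = 2 := by rw [vB, if_neg (by omega), if_neg (by omega)]
        rw [e1, e2, cs3]
        norm_num
    rcases Nat.eq_zero_or_pos x with h0 | h0
    · refine ⟨{1}, ?_, ?_⟩
      · simp only [Finset.mem_singleton]
        omega
      · rw [Finset.sum_singleton]
        have e1 : sy (Cl.tB.lab n) x 1 = 4 := by
          simp only [sy, Cl.lab]
          split_ifs <;> first | contradiction | omega
        have e2 : vB n x = √2 := if_pos (by omega)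
        have e3 : vB n 1 = 2 := by rw [vB, if_neg (by omega), if_neg (by omega)]
        rw [e1, e2, e3, cs4]
        linarith
    · rcases Nat.lt_or_ge (x + 3) n with h1 | h1
      · refine ⟨{x - 1, x + 1}, ?_, ?_⟩
        · simp only [Finset.mem_insert, Finset.mem_singleton]
          omega
        · rw [Finset.sum_pair (by omega)]
          have e1 : sy (Cl.tB.lab n) x (x + 1) = 3 := by
            simp only [sy, Cl.lab]
            split_ifs <;> first | contradiction | omega
          have e2 : vB n x = 2 := by rw [vB, if_neg (by omega), if_neg (by omega)]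
          have e3 : vB n (x + 1) = 2 := by rw [vB, if_neg (by omega), if_neg (by omega)]
          rw [e1, e2, e3, cs3]
          have h2 := hl h0 (by omega)
          linarith
      · rcases Nat.eq_or_lt_of_le h1 with h1 | h1
        · refine ⟨{x - 1, x + 1, x + 2}, ?_, ?_⟩
          · simp only [Finset.mem_insert, Finset.mem_singleton]
            omega
          · rw [Finset.sum_insert (by simp only [Finset.mem_insert, Finset.mem_singleton]; omega),
              Finset.sum_pair (by omega)]
            have e1 : sy (Cl.tB.lab n) x (x + 1) = 3 := by
              simp only [sy, Cl.lab]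
              split_ifs <;> first | contradiction | omega
            have e1' : sy (Cl.tB.lab n) x (x + 2) = 3 := by
              simp only [sy, Cl.lab]
              split_ifs <;> first | contradiction | omega
            have e2 : vB n x = 2 := by rw [vB, if_neg (by omega), if_neg (by omega)]
            have e3 : vB n (x + 1) = 1 := by rw [vB, if_neg (by omega), if_pos (by omega)]
            have e4 : vB n (x + 2) = 1 := by rw [vB, if_neg (by omega), if_pos (by omega)]
            rw [e1, e1', e2, e3, e4, cs3]
            have h2 := hl h0 (by omega)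
            linarith
        · refine ⟨{n - 3}, ?_, ?_⟩
          · simp only [Finset.mem_singleton]
            omega
          · rw [Finset.sum_singleton]
            have e1 : sy (Cl.tB.lab n) x (n - 3) = 3 := by
              simp only [sy, Cl.lab]
              split_ifs <;> first | contradiction | omega
            have e2 : vB n x = 1 := by rw [vB, if_neg (by omega), if_pos (by omega)]
            have e3 : vB n (n - 3) = 2 := by rw [vB, if_neg (by omega), if_neg (by omega)]
            rw [e1, e2, e3, cs3]
            norm_num

/-- the vector of affine `D` -/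
noncomputable def vD (n x : ℕ) : ℝ := if x = 0 ∨ n ≤ x + 3 then 1 else 2

theorem mD (n : ℕ) (hn : 5 ≤ n) : ∃ v, Mdl n (Cl.tD.lab n) v := by
  refine ⟨vD n, mdl_of (fun x y _ _ => ?_) (fun x _ => ?_) fun x hx => ?_⟩
  · simp only [Cl.lab]
    split_ifs <;> first | contradiction | omega
  · simp only [vD]
    split_ifs
    · exact one_pos
    · exact two_pos
  · by_cases h0 : x = 0 ∨ x + 2 = n
    · refine ⟨{1}, ?_, ?_⟩
      · simp only [Finset.mem_singleton]
        omega
      · rw [Finset.sum_singleton]
        have e1 : sy (Cl.tD.lab n) x 1 = 3 := by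
          simp only [sy, Cl.lab]
          split_ifs <;> first | contradiction | omega
        have e2 : vD n x = 1 := if_pos (by omega)
        have e3 : vD n 1 = 2 := if_neg (by omega)
        rw [e1, e2, e3, cs3]
        norm_num
    · by_cases h1 : x + 3 = n ∨ x + 1 = n
      · refine ⟨{n - 4}, ?_, ?_⟩
        · simp only [Finset.mem_singleton]
          omega
        · rw [Finset.sum_singleton]
          have e1 : sy (Cl.tD.lab n) x (n - 4) = 3 := by
            simp only [sy, Cl.lab]
            split_ifs <;> first | contradiction | omega
          have e2 : vD n x = 1 := if_pos (by omega)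
          have e3 : vD n (n - 4) = 2 := if_neg (by omega)
          rw [e1, e2, e3, cs3]
          norm_num
      · have e2 : vD n x = 2 := if_neg (by omega)
        have f1 : sy (Cl.tD.lab n) x (x - 1) = 3 := by
          simp only [sy, Cl.lab]
          split_ifs <;> first | contradiction | omega
        have f2 : sy (Cl.tD.lab n) x (x + 1) = 3 := by
          simp only [sy, Cl.lab]
          split_ifs <;> first | contradiction | omega
        by_cases h2 : x = 1
        · have f3 : sy (Cl.tD.lab n) x (n - 2) = 3 := by
            simp only [sy, Cl.lab]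
            split_ifs <;> first | contradiction | omega
          have g1 : vD n (x - 1) = 1 := if_pos (by omega)
          have g3 : vD n (n - 2) = 1 := if_pos (by omega)
          by_cases h3 : x + 4 = n
          · have f4 : sy (Cl.tD.lab n) x (n - 1) = 3 := by
              simp only [sy, Cl.lab]
              split_ifs <;> first | contradiction | omega
            have g2 : vD n (x + 1) = 1 := if_pos (by omega)
            have g4 : vD n (n - 1) = 1 := if_pos (by omega)
            refine ⟨{x - 1, x + 1, n - 2, n - 1}, ?_, ?_⟩
            · simp only [Finset.mem_insert, Finset.mem_singleton]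
              omega
            · rw [Finset.sum_insert (by simp only [Finset.mem_insert, Finset.mem_singleton]; omega),
                Finset.sum_insert (by simp only [Finset.mem_insert, Finset.mem_singleton]; omega),
                Finset.sum_pair (by omega), f1, f2, f3, f4, e2, g1, g2, g3, g4, cs3]
              norm_num
          · have g2 : vD n (x + 1) = 2 := if_neg (by omega)
            refine ⟨{x - 1, x + 1, n - 2}, ?_, ?_⟩
            · simp only [Finset.mem_insert, Finset.mem_singleton]
              omega
            · rw [Finset.sum_insert (by simp only [Finset.mem_insert, Finset.mem_singleton]; omega),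
                Finset.sum_pair (by omega), f1, f2, f3, e2, g1, g2, g3, cs3]
              norm_num
        · have g1 : vD n (x - 1) = 2 := if_neg (by omega)
          by_cases h3 : x + 4 = n
          · have f4 : sy (Cl.tD.lab n) x (n - 1) = 3 := by
              simp only [sy, Cl.lab]
              split_ifs <;> first | contradiction | omega
            have g2 : vD n (x + 1) = 1 := if_pos (by omega)
            have g4 : vD n (n - 1) = 1 := if_pos (by omega)
            refine ⟨{x - 1, x + 1, n - 1}, ?_, ?_⟩
            · simp only [Finset.mem_insert, Finset.mem_singleton]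
              omega
            · rw [Finset.sum_insert (by simp only [Finset.mem_insert, Finset.mem_singleton]; omega),
                Finset.sum_pair (by omega), f1, f2, f4, e2, g1, g2, g4, cs3]
              norm_num
          · have g2 : vD n (x + 1) = 2 := if_neg (by omega)
            refine ⟨{x - 1, x + 1}, ?_, ?_⟩
            · simp only [Finset.mem_insert, Finset.mem_singleton]
              omega
            · rw [Finset.sum_pair (by omega), f1, f2, e2, g1, g2, cs3]
              norm_num

end Pool.Agent.H98.CD
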