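import Pool.Agent.H54.AP.Nv

/-!
# Comparison of an irreducible positive semidefinite diagram with a model

`cl m = - cos (π / m)`. `row_cmp`: a nonnegative vector `y` with `y i ≤ ∑_(j ∈ N i) a i j * y j`, `a i j ≤ - cm M i j`, for all `i` with
`y i > 0`: then `y` is positive everywhere, `a i j = - cm M i j`, and all other labels are `2`. `cmp`: the same for an injective map from a
model.
-/

set_option autoImplicit false

namespace Pool.Agent.H98.CD

open Pool.Agent.H54.AP Pool.Agent.H54.TF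

/-- the cosine of a label -/
noncomputable def cl (m : ℕ) : ℝ := - Real.cos (Real.pi / m)

theorem cl_one : cl 1 = 1 := by
  rw [cl, Nat.cast_one, div_one, Real.cos_pi, neg_neg]

theorem cl_two : cl 2 = 0 := by
  rw [cl]
  push_cast
  rw [Real.cos_pi_div_two, neg_zero]

theorem cl_three : cl 3 = -(1 / 2) := by
  rw [cl]
  push_cast
  rw [Real.cos_pi_div_three]

theorem cl_four : cl 4 = -(√2 / 2) := by
  rw [cl]
  push_cast
  rw [Real.cos_pi_div_four]

theorem cl_five : cl 5 = -((1 + √5) / 4) := by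
  rw [cl]
  push_cast
  rw [Real.cos_pi_div_five]

theorem cl_strict {m m' : ℕ} (h : 1 ≤ m) (h' : m < m') : cl m' < cl m := by
  unfold cl
  have h1 : (1 : ℝ) ≤ m := by exact_mod_cast h
  have h2 : (m : ℝ) < m' := by exact_mod_cast h'
  have h3 : Real.pi / m' < Real.pi / m := div_lt_div_of_pos_left Real.pi_pos (by linarith) h2
  have h4 : Real.cos (Real.pi / m) < Real.cos (Real.pi / m') := by
    refine Real.cos_lt_cos_of_nonneg_of_le_pi (div_nonneg Real.pi_pos.le (by linarith)) ?_ h3
    exact div_le_self Real.pi_pos.le h1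
  linarith

theorem cl_mono {m m' : ℕ} (h : 1 ≤ m) (h' : m ≤ m') : cl m' ≤ cl m := by
  rcases Nat.lt_or_eq_of_le h' with h1 | h1
  · exact (cl_strict h h1).le
  · rw [h1]

variable {B : Type} {M : CoxeterMatrix B}

theorem cm_cl (i j : B) : cm M i j = cl (M i j) := rfl

/-- the row form of the comparison -/
theorem row_cmp [Fintype B] [DecidableEq B] (hM : ∀ i j, M i j ≠ 0) (hI : Irr M Set.univ) (hp : Psd M) (y : B → ℝ)
    (hy : ∀ i, 0 ≤ y i) (hy0 : y ≠ 0) (N : B → Finset B) (hN : ∀ i, i ∉ N i) (a : B → B → ℝ)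
    (ha : ∀ i, 0 < y i → ∀ j ∈ N i, a i j ≤ -cm M i j) (h : ∀ i, 0 < y i → y i ≤ ∑ j ∈ N i, a i j * y j) :
    (∀ i, 0 < y i) ∧ (∀ i, ∀ j ∈ N i, -cm M i j = a i j) ∧ ∀ i j, i ≠ j → j ∉ N i → M i j = 2 := by
  have row : ∀ i, ∑ j, y j * cm M i j ≤ y i - ∑ j ∈ N i, (-cm M i j) * y j := by
    intro i
    have h1 := Finset.sum_le_sum_of_subset_of_nonneg (f := fun j => -(y j * cm M i j))
      (Finset.subset_univ (insert i (N i))) (fun j _ hj => by
        have h2 : i ≠ j := fun e => hj (by rw [e]; exact Finset.mem_insert_self _ _)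
        have h3 := cm_nonpos h2 (hM i j)
        have h4 := mul_nonpos_of_nonneg_of_nonpos (hy j) h3
        linarith)
    rw [Finset.sum_insert (hN i), Finset.sum_neg_distrib, Finset.sum_neg_distrib, cm_self] at h1
    have h2 : ∑ j ∈ N i, (-cm M i j) * y j = -∑ j ∈ N i, y j * cm M i j := by
      rw [← Finset.sum_neg_distrib]
      exact Finset.sum_congr rfl fun j _ => by ring
    rw [h2]
    linarith
  have hle : ∀ i, 0 < y i → ∑ j ∈ N i, a i j * y j ≤ ∑ j ∈ N i, (-cm M i j) * y j := by
    intro i hi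
    exact Finset.sum_le_sum fun j hj => mul_le_mul_of_nonneg_right (ha i hi j hj) (hy j)
  have hq : qf M y ≤ 0 := by
    unfold qf bf
    refine Finset.sum_nonpos fun i _ => ?_
    have e : ∑ j, y i * y j * cm M i j = y i * ∑ j, y j * cm M i j := by
      rw [Finset.mul_sum]
      exact Finset.sum_congr rfl fun j _ => by ring
    rw [e]
    rcases (hy i).lt_or_eq with h1 | h1
    · have h2 := row i
      have h3 := hle i h1
      have h4 := h i h1
      exact mul_nonpos_of_nonneg_of_nonpos h1.le (by linarith)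
    · rw [← h1, zero_mul]
  obtain ⟨hpos, hnull⟩ := null_vec hM hI hp hy0 hq
  have habs : ∀ i, |y i| = y i := fun i => abs_of_nonneg (hy i)
  have hpos' : ∀ i, 0 < y i := fun i => by
    have := hpos i
    rwa [habs] at this
  have hz : ∀ i, ∑ j, y j * cm M i j = 0 := fun i => by
    rw [← hnull i]
    exact Finset.sum_congr rfl fun j _ => by rw [habs]; ring
  have heq : ∀ i, ∑ j ∈ N i, a i j * y j = ∑ j ∈ N i, (-cm M i j) * y j := by
    intro i
    refine le_antisymm (hle i (hpos' i)) ?_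
    have h1 := row i
    rw [hz] at h1
    have h2 := h i (hpos' i)
    linarith
  refine ⟨hpos', fun i j hj => ?_, fun i j hij hj => ?_⟩
  · have h1 := (Finset.sum_eq_sum_iff_of_le fun j hj =>
      mul_le_mul_of_nonneg_right (ha i (hpos' i) j hj) (hy j)).1 (heq i) j hj
    exact (mul_right_cancel₀ (hpos' j).ne' h1).symm
  · by_contra h2
    have h3 := M.off_diagonal i j hij
    have h4 := hM i j
    have h5 := cm_neg (show 3 ≤ M i j by omega)
    have h6 := Finset.sum_le_sum_of_subset_of_nonneg (f := fun k => -(y k * cm M i k))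
      (Finset.subset_univ (insert j (insert i (N i)))) (fun k _ hk => by
        have h2 : i ≠ k := fun e => hk (by rw [e]; simp)
        have h3 := cm_nonpos h2 (hM i k)
        have h4 := mul_nonpos_of_nonneg_of_nonpos (hy k) h3
        linarith)
    rw [Finset.sum_insert (by simp [hj, hij.symm]), Finset.sum_insert (hN i), Finset.sum_neg_distrib,
      Finset.sum_neg_distrib, hz, cm_self] at h6
    have h7 : ∑ k ∈ N i, (-cm M i k) * y k = -∑ k ∈ N i, y k * cm M i k := by
      rw [← Finset.sum_neg_distrib]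
      exact Finset.sum_congr rfl fun k _ => by ring
    have h8 := h i (hpos' i)
    rw [heq, h7] at h8
    have h9 := mul_neg_of_pos_of_neg (hpos' j) h5
    linarith

/-- the comparison with a model `L` on `ι` -/
theorem cmp [Fintype B] (hM : ∀ i j, M i j ≠ 0) (hI : Irr M Set.univ) (hp : Psd M) {ι : Type} [Fintype ι]
    (f : ι → B) (hf : Function.Injective f) (L : ι → ι → ℕ) (hL1 : ∀ i, L i i = 1) (hL2 : ∀ i j, i ≠ j → 2 ≤ L i j)
    (hL : ∀ i j, i ≠ j → L i j ≤ M (f i) (f j)) (v : ι → ℝ) (hv : ∀ i, 0 ≤ v i) (hv0 : v ≠ 0)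
    (hq : ∑ i, ∑ j, v i * v j * cl (L i j) ≤ 0) :
    Function.Surjective f ∧ (∀ i, 0 < v i) ∧ ∀ i j, i ≠ j → M (f i) (f j) = L i j := by
  classical
  have hle : ∀ i j, cm M (f i) (f j) ≤ cl (L i j) := by
    intro i j
    by_cases h : i = j
    · rw [h, cm_self, hL1, cl_one]
    · exact cl_mono (by have := hL2 i j h; omega) (hL i j h)
  obtain ⟨y, hy⟩ : ∃ y : B → ℝ, ∀ b, y b = if h : ∃ i, f i = b then v h.choose else 0 := ⟨_, fun _ => rfl⟩
  have hyf : ∀ i, y (f i) = v i := by
    intro i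
    have h : ∃ k, f k = f i := ⟨i, rfl⟩
    rw [hy, dif_pos h, hf h.choose_spec]
  have hy' : ∀ b, b ∉ Set.range f → y b = 0 := fun b hb => by
    rw [hy, dif_neg]
    rintro ⟨i, hi⟩
    exact hb ⟨i, hi⟩
  have hsum : ∀ g : B → ℝ, ∑ b, y b * g b = ∑ i, v i * g (f i) := by
    intro g
    have h1 : ∑ b, y b * g b = ∑ b ∈ Finset.univ.image f, y b * g b := by
      refine (Finset.sum_subset (Finset.subset_univ _) fun b _ hb => ?_).symm
      rw [hy' b (fun ⟨i, hi⟩ => hb (Finset.mem_image.2 ⟨i, Finset.mem_univ i, hi⟩)), zero_mul]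
    rw [h1, Finset.sum_image fun i _ j _ h => hf h]
    exact Finset.sum_congr rfl fun i _ => by rw [hyf]
  have hqf : qf M y = ∑ i, ∑ j, v i * v j * cm M (f i) (f j) := by
    unfold qf bf
    have h1 : ∀ i, ∑ j, y i * y j * cm M i j = y i * ∑ j, y j * cm M i j := fun i => by
      rw [Finset.mul_sum]
      exact Finset.sum_congr rfl fun j _ => by ring
    simp only [h1]
    rw [hsum]
    refine Finset.sum_congr rfl fun i _ => ?_
    rw [hsum, Finset.mul_sum]
    exact Finset.sum_congr rfl fun j _ => by ring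
  have hterm : ∀ i j, v i * v j * cm M (f i) (f j) ≤ v i * v j * cl (L i j) := fun i j =>
    mul_le_mul_of_nonneg_left (hle i j) (mul_nonneg (hv i) (hv j))
  have hq' : qf M y ≤ 0 := by
    rw [hqf]
    exact (Finset.sum_le_sum fun i _ => Finset.sum_le_sum fun j _ => hterm i j).trans hq
  have hy0 : y ≠ 0 := by
    intro h
    apply hv0
    funext i
    rw [← hyf i, h]
    rfl
  obtain ⟨hpos, -⟩ := null_vec hM hI hp hy0 hq'
  have hsurj : Function.Surjective f := by
    intro b
    by_contra hb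
    have h1 := hpos b
    rw [hy' b hb, abs_zero] at h1
    exact lt_irrefl _ h1
  have hv' : ∀ i, 0 < v i := by
    intro i
    have h1 := hpos (f i)
    rw [hyf, abs_of_nonneg (hv i)] at h1
    exact h1
  refine ⟨hsurj, hv', fun i j hij => ?_⟩
  have h0 : qf M y = 0 := le_antisymm hq' (psd_iff.1 hp y)
  rw [hqf] at h0
  have h1 : ∑ i, ∑ j, v i * v j * cm M (f i) (f j) = ∑ i, ∑ j, v i * v j * cl (L i j) := by
    refine le_antisymm (Finset.sum_le_sum fun i _ => Finset.sum_le_sum fun j _ => hterm i j) ?_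
    rw [h0]
    exact hq
  have h2 := (Finset.sum_eq_sum_iff_of_le fun i _ => Finset.sum_le_sum fun j _ => hterm i j).1 h1 i (Finset.mem_univ i)
  have h3 := (Finset.sum_eq_sum_iff_of_le fun j _ => hterm i j).1 h2 j (Finset.mem_univ j)
  have h4 : cm M (f i) (f j) = cl (L i j) := mul_left_cancel₀ (mul_pos (hv' i) (hv' j)).ne' h3
  have h5 := hL i j hij
  have h6 := hL2 i j hij
  by_contra h7
  have h8 := cl_strict (m := L i j) (m' := M (f i) (f j)) (by omega) (by omega)
  rw [cm_cl] at h4
  linarith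

end Pool.Agent.H98.CD
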