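import Pool.Agent.H98.CD.Std
import Pool.Agent.H98.CD.Fam
import Pool.Agent.H75.CD.Fm
import Pool.Agent.H54.AP.Pd
import Pool.Agent.H2.UF.Dsc

/-!
# [CD] The Artin groups of type `F4` and `H4` embed in those of type `E6` and `E8`
-/

set_option autoImplicit false

namespace Pool.Agent.H98.CD

open Pool.Agent.H52.CD Pool.Agent.H52.PAG Pool.Agent.H98.FJ Pool.Agent.H2.UF Pool.Agent.H54.AP Pool.Agent.H75.CD
open Pool.Agent.H10.CD (cs cos_cs cs2 cs3 cs4)

theorem exM_ne (c : Ex) (i j : Fin c.num) : exM c i j ≠ 0 := by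
  have h1 : exM c i j = if i = j then 1 else sy c.lab i.val j.val := rfl
  rw [h1]
  split_ifs
  · exact one_ne_zero
  · unfold sy
    cases c <;> simp only [Ex.lab, lbr] <;> split_ifs <;> omega

theorem cs1 : cs 1 = -1 := by
  rw [← cos_cs, Nat.cast_one, div_one, Real.cos_pi]

theorem cs5 : cs 5 = (1 + √5) / 4 := by
  rw [← cos_cs]
  have : Real.pi / ((5 : ℕ) : ℝ) = Real.pi / 5 := by norm_num
  rw [this, Real.cos_pi_div_five]

theorem cm_ex (c : Ex) (i j : Fin c.num) : cm (exM c) i j = -cs (if i = j then 1 else sy c.lab i.val j.val) := by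
  rw [← cos_cs]
  rfl

theorem f4_qf (x : Fin 4 → ℝ) : qf (exM .F4) x =
    x 0 * x 0 + x 1 * x 1 + x 2 * x 2 + x 3 * x 3 - x 0 * x 1 - √2 * (x 1 * x 2) - x 2 * x 3 := by
  unfold qf bf
  change (∑ i : Fin 4, ∑ j : Fin 4, x i * x j * cm (exM .F4) i j) = _
  simp only [Fin.sum_univ_four]
  rw [cm_ex, cm_ex, cm_ex, cm_ex, cm_ex, cm_ex, cm_ex, cm_ex, cm_ex, cm_ex, cm_ex, cm_ex, cm_ex, cm_ex, cm_ex, cm_ex]
  simp [sy, Ex.lab, cs1, cs2, cs3, cs4]
  ring

theorem h4_qf (x : Fin 4 → ℝ) : qf (exM .H4) x =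
    x 0 * x 0 + x 1 * x 1 + x 2 * x 2 + x 3 * x 3 - (1 + √5) / 2 * (x 0 * x 1) - x 1 * x 2 - x 2 * x 3 := by
  unfold qf bf
  change (∑ i : Fin 4, ∑ j : Fin 4, x i * x j * cm (exM .H4) i j) = _
  simp only [Fin.sum_univ_four]
  rw [cm_ex, cm_ex, cm_ex, cm_ex, cm_ex, cm_ex, cm_ex, cm_ex, cm_ex, cm_ex, cm_ex, cm_ex, cm_ex, cm_ex, cm_ex, cm_ex]
  simp [sy, Ex.lab, cs1, cs2, cs3, cs5]
  ring

/-- the Coxeter group of type `F4` is finite -/
theorem f4_fin : Finite (exM .F4).Group := by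
  refine fin_of_pd (exM_ne .F4) fun (x : Fin 4 → ℝ) hx => ?_
  have hs : √2 * √2 = 2 := Real.mul_self_sqrt (by norm_num)
  rw [f4_qf]
  have e : x 0 * x 0 + x 1 * x 1 + x 2 * x 2 + x 3 * x 3 - x 0 * x 1 - √2 * (x 1 * x 2) - x 2 * x 3 =
      (x 3 - x 2 / 2) ^ 2 + 3 / 4 * (x 2 - 2 * √2 / 3 * x 1) ^ 2 + 1 / 3 * (x 1 - 3 / 2 * x 0) ^ 2 + 1 / 4 * x 0 ^ 2 := by
    have h : (x 2 - 2 * √2 / 3 * x 1) ^ 2 = x 2 ^ 2 - 4 * √2 / 3 * (x 1 * x 2) + 4 / 9 * (√2 * √2) * x 1 ^ 2 := by ring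
    rw [h, hs]
    ring
  rw [e]
  by_contra hcon
  have h1 := sq_nonneg (x 3 - x 2 / 2)
  have h2 := sq_nonneg (x 2 - 2 * √2 / 3 * x 1)
  have h3 := sq_nonneg (x 1 - 3 / 2 * x 0)
  have h4 := sq_nonneg (x 0)
  have a0 : x 0 = 0 := by
    have : x 0 ^ 2 = 0 := by linarith
    exact pow_eq_zero_iff (two_ne_zero) |>.1 this
  have a1 : x 1 = 0 := by
    have : (x 1 - 3 / 2 * x 0) ^ 2 = 0 := by linarith
    have := pow_eq_zero_iff (two_ne_zero) |>.1 this
    rw [a0] at this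
    linarith
  have a2 : x 2 = 0 := by
    have : (x 2 - 2 * √2 / 3 * x 1) ^ 2 = 0 := by linarith
    have := pow_eq_zero_iff (two_ne_zero) |>.1 this
    rw [a1] at this
    linarith
  have a3 : x 3 = 0 := by
    have : (x 3 - x 2 / 2) ^ 2 = 0 := by linarith
    have := pow_eq_zero_iff (two_ne_zero) |>.1 this
    rw [a2] at this
    linarith
  apply hx
  funext i
  fin_cases i
  · exact a0
  · exact a1
  · exact a2
  · exact a3

/-- the Coxeter group of type `H4` is finite -/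
theorem h4_fin : Finite (exM .H4).Group := by
  refine fin_of_pd (exM_ne .H4) fun (x : Fin 4 → ℝ) hx => ?_
  have hs : √5 * √5 = 5 := Real.mul_self_sqrt (by norm_num)
  have h5 : √5 < 2.24 := by
    rw [Real.sqrt_lt' (by norm_num)]
    norm_num
  rw [h4_qf]
  have e : x 0 * x 0 + x 1 * x 1 + x 2 * x 2 + x 3 * x 3 - (1 + √5) / 2 * (x 0 * x 1) - x 1 * x 2 - x 2 * x 3 =
      (x 3 - x 2 / 2) ^ 2 + 3 / 4 * (x 2 - 2 / 3 * x 1) ^ 2 + 2 / 3 * (x 1 - 3 * (1 + √5) / 8 * x 0) ^ 2 +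
        (7 - 3 * √5) / 16 * x 0 ^ 2 := by
    have h : (x 1 - 3 * (1 + √5) / 8 * x 0) ^ 2 = x 1 ^ 2 - 3 * (1 + √5) / 4 * (x 0 * x 1) +
        9 / 64 * (1 + 2 * √5 + √5 * √5) * x 0 ^ 2 := by ring
    rw [h, hs]
    ring
  rw [e]
  by_contra hcon
  have h1 := sq_nonneg (x 3 - x 2 / 2)
  have h2 := sq_nonneg (x 2 - 2 / 3 * x 1)
  have h3 := sq_nonneg (x 1 - 3 * (1 + √5) / 8 * x 0)
  have h4 := sq_nonneg (x 0)
  have hc : 0 < (7 - 3 * √5) / 16 := by linarith
  have h4' := mul_nonneg hc.le h4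
  have a0 : x 0 = 0 := by
    have h6 : (7 - 3 * √5) / 16 * x 0 ^ 2 = 0 := by linarith
    have h7 := (mul_eq_zero.1 h6).resolve_left hc.ne'
    exact pow_eq_zero_iff (two_ne_zero) |>.1 h7
  have a1 : x 1 = 0 := by
    have : (x 1 - 3 * (1 + √5) / 8 * x 0) ^ 2 = 0 := by linarith
    have := pow_eq_zero_iff (two_ne_zero) |>.1 this
    rw [a0] at this
    linarith
  have a2 : x 2 = 0 := by
    have : (x 2 - 2 / 3 * x 1) ^ 2 = 0 := by linarith
    have := pow_eq_zero_iff (two_ne_zero) |>.1 this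
    rw [a1] at this
    linarith
  have a3 : x 3 = 0 := by
    have : (x 3 - x 2 / 2) ^ 2 = 0 := by linarith
    have := pow_eq_zero_iff (two_ne_zero) |>.1 this
    rw [a2] at this
    linarith
  apply hx
  funext i
  fin_cases i
  · exact a0
  · exact a1
  · exact a2
  · exact a3

theorem ex_eq (c : Ex) (i j : Fin c.num) : exM c i j = if i = j then 1 else sy c.lab i.val j.val := rfl

theorem mx_eq {B : Type} (M : CoxeterMatrix B) {b c : B} (hbc : b ≠ c) (V : Set B) (s t : B ⊕ V) :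
    Mx M hbc V s t = mxf M b c V s t := rfl

/-- type `F4` -/
def mF : CoxeterMatrix (Fin 4) := exM .F4

/-- type `E6` -/
def mE : CoxeterMatrix (Fin 6) := exM .E6

/-- type `H4` -/
def mH : CoxeterMatrix (Fin 4) := exM .H4

/-- type `E8` -/
def mK : CoxeterMatrix (Fin 8) := exM .E8

theorem of_bij {C : (G : Type) → [Group G] → Prop} (hC : Inherits C) {B B' : Type} (M : CoxeterMatrix B)
    (M' : CoxeterMatrix B') (g : B' → B) (hg : Function.Bijective g) (h : ∀ i j, M (g i) (g j) = M' i j)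
    (h' : C (Art M')) : C (Art M) := by
  refine Pool.Agent.H52.DT.art_mem_congr hC M M' (Equiv.ofBijective g hg).symm (fun x y => ?_) h'
  rw [← h]
  exact congrArg₂ _ ((Equiv.ofBijective g hg).apply_symm_apply x) ((Equiv.ofBijective g hg).apply_symm_apply y)

/-- one side of the edge of `F4` with the label `4` -/
def uF : Set (Fin 4) := {i | i = 0 ∨ i = 1}

/-- the names of the vertices of `E6` -/
def gF : Fin 6 → Fin 4 ⊕ uF :=
  ![.inl 3, .inl 0, .inl 1, .inl 2, .inr ⟨1, Or.inr rfl⟩, .inr ⟨0, Or.inl rfl⟩]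

theorem gF_bij : Function.Bijective gF := by
  constructor
  · intro i j h
    fin_cases i <;> fin_cases j <;> first | rfl | simp [gF] at h
  · rintro (i | ⟨i, hi⟩)
    · fin_cases i
      · exact ⟨1, rfl⟩
      · exact ⟨2, rfl⟩
      · exact ⟨3, rfl⟩
      · exact ⟨0, rfl⟩
    · rcases hi with rfl | rfl
      · exact ⟨5, rfl⟩
      · exact ⟨4, rfl⟩

theorem ne12 : (1 : Fin 4) ≠ 2 := by decide

theorem ne01 : (0 : Fin 4) ≠ 1 := by decide

theorem gF_lab (i j : Fin 6) : Mx mF ne12 uF (gF i) (gF j) = mE i j := by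
  rw [mx_eq]
  fin_cases i <;> fin_cases j <;> simp [gF, mxf, mF, mE, ex_eq, sy, Ex.lab, lbr]

theorem uF_lab : ∀ i ∈ uF, ∀ j, j ∉ uF → ¬ (i = 1 ∧ j = 2) → mF i j = 2 := by
  rintro i (rfl | rfl) j hj hij
  · have h1 : j ≠ 0 := fun e => hj (Or.inl e)
    have h2 : j ≠ 1 := fun e => hj (Or.inr e)
    clear hj hij
    revert h1 h2
    revert j
    decide
  · have h1 : j ≠ 0 := fun e => hj (Or.inl e)
    have h2 : j ≠ 1 := fun e => hj (Or.inr e)
    have h3 : j ≠ 2 := fun e => hij ⟨rfl, e⟩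
    clear hj hij
    revert h1 h2 h3
    revert j
    decide

/-- the Artin group of type `F4` is in the class if that of type `E6` is -/
theorem f4_mem {C : (G : Type) → [Group G] → Prop} (hC : Inherits C) (h : C (Art (exM .E6))) : C (Art (exM .F4)) := by
  change C (Art mF)
  have hfin : Finite mF.Group := f4_fin
  obtain ⟨F, hF⟩ := exists_fold4 mF ne12 uF (Or.inr rfl)
    (by
      rintro (h1 | h1)
      · exact absurd h1 (by decide)
      · exact absurd h1 (by decide))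
    uF_lab rfl
  have hfin' : Finite (Mx mF ne12 uF).Group := F.fin
  have hs : Function.Surjective F.pi := by
    rw [hF]
    intro i
    exact ⟨.inl i, rfl⟩
  exact fold_mem hC F hs (of_bij hC _ mE gF gF_bij gF_lab h)

/-- the names of the vertices of `E8` -/
def gH : Fin 8 → Fin 4 ⊕ (Set.univ : Set (Fin 4)) :=
  ![.inl 0, .inl 3, .inl 2, .inl 1, .inr ⟨0, trivial⟩, .inr ⟨1, trivial⟩, .inr ⟨2, trivial⟩, .inr ⟨3, trivial⟩]

theorem gH_bij : Function.Bijective gH := by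
  constructor
  · intro i j h
    fin_cases i <;> fin_cases j <;> first | rfl | simp [gH] at h
  · rintro (i | ⟨i, hi⟩)
    · fin_cases i
      · exact ⟨0, rfl⟩
      · exact ⟨3, rfl⟩
      · exact ⟨2, rfl⟩
      · exact ⟨1, rfl⟩
    · fin_cases i
      · exact ⟨4, rfl⟩
      · exact ⟨5, rfl⟩
      · exact ⟨6, rfl⟩
      · exact ⟨7, rfl⟩

theorem gH_lab (i j : Fin 8) : Mx mH ne01 Set.univ (gH i) (gH j) = mK i j := by
  rw [mx_eq]
  fin_cases i <;> fin_cases j <;> simp [gH, mxf, mH, mK, ex_eq, sy, Ex.lab, lbr]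

theorem uH_lab : ∀ i ∈ ({i | i = 0} : Set (Fin 4)), ∀ j, j ∉ ({i | i = 0} : Set (Fin 4)) → ¬ (i = 0 ∧ j = 1) →
    mH i j = 2 := by
  rintro i rfl j hj hij
  have h1 : j ≠ 0 := fun e => hj e
  have h2 : j ≠ 1 := fun e => hij ⟨rfl, e⟩
  clear hj hij
  revert h1 h2
  revert j
  decide

/-- the Artin group of type `H4` is in the class if that of type `E8` is -/
theorem h4_mem {C : (G : Type) → [Group G] → Prop} (hC : Inherits C) (h : C (Art (exM .E8))) : C (Art (exM .H4)) := by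
  change C (Art mH)
  have hfin : Finite mH.Group := h4_fin
  obtain ⟨F, hF⟩ := exists_fold5 mH ne01 {i | i = 0} rfl (fun h1 => absurd h1 (by decide)) uH_lab rfl
  have hfin' : Finite (Mx mH ne01 Set.univ).Group := F.fin
  have hs : Function.Surjective F.pi := by
    rw [hF]
    intro i
    exact ⟨.inl i, rfl⟩
  exact fold_mem hC F hs (of_bij hC _ mK gH gH_bij gH_lab h)

end Pool.Agent.H98.CD
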