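import Pool.Agent.H52.CD.Def
import Pool.Agent.H52.DT.Rel
import Pool.Agent.H54.AR.Fin

/-!
# [CD] The exceptional diagrams as Coxeter matrices
-/

set_option autoImplicit false

namespace Pool.Agent.H98.CD

open Pool.Agent.H52.CD Pool.Agent.H52.PAG Pool.Agent.H98.FJ
open Pool.Agent.H54.AR (rst rst_apply)

theorem sy_comm (L : ℕ → ℕ → ℕ) {x y : ℕ} (h : x ≠ y) : sy L x y = sy L y x := by
  unfold sy
  rcases Nat.lt_or_gt_of_ne h with h1 | h1
  · rw [if_pos h1, if_neg (by omega)]
  · rw [if_neg (by omega), if_pos h1]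

/-- the Coxeter matrix on `Fin n` with the labels `L` -/
def tyM (n : ℕ) (L : ℕ → ℕ → ℕ) (hL : ∀ x y, L x y ≠ 1) : CoxeterMatrix (Fin n) where
  M := Matrix.of fun i j => if i = j then 1 else sy L i.val j.val
  isSymm := by
    refine Matrix.IsSymm.ext fun i j => ?_
    simp only [Matrix.of_apply]
    by_cases h : i = j
    · rw [h]
    · rw [if_neg h, if_neg (fun h1 => h h1.symm), sy_comm]
      exact fun h1 => h (Fin.ext h1.symm)
  diagonal i := by simp
  off_diagonal i j h := by
    simp only [Matrix.of_apply, if_neg h, sy]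
    split_ifs
    · exact hL _ _
    · exact hL _ _

theorem tyM_self (n : ℕ) (L : ℕ → ℕ → ℕ) (hL : ∀ x y, L x y ≠ 1) (i : Fin n) : tyM n L hL i i = 1 := if_pos rfl

theorem tyM_lt (n : ℕ) (L : ℕ → ℕ → ℕ) (hL : ∀ x y, L x y ≠ 1) {i j : Fin n} (h : i < j) :
    tyM n L hL i j = L i j := by
  have h1 : tyM n L hL i j = if i = j then 1 else sy L i.val j.val := rfl
  rw [h1, if_neg h.ne, sy, if_pos (show i.val < j.val from h)]

/-- membership does not depend on the names of the generators -/
theorem ty_mem {C : (G : Type) → [Group G] → Prop} (hC : Inherits C) {B : Type} {M : CoxeterMatrix B} {T : Finset B}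
    {n : ℕ} {L : ℕ → ℕ → ℕ} (hL : ∀ x y, L x y ≠ 1) (h : IsTy M T n L) : C (Art (tyM n L hL)) ↔ C (Art (rst M T)) := by
  obtain ⟨e, he⟩ := h
  have key : ∀ i j : Fin n, rst M T (e i) (e j) = tyM n L hL i j := by
    intro i j
    rw [rst_apply]
    rcases lt_trichotomy i j with h1 | h1 | h1
    · rw [he i j h1, tyM_lt n L hL h1]
    · rw [h1, M.diagonal, tyM_self]
    · rw [M.symmetric, he j i h1, (tyM n L hL).symmetric, tyM_lt n L hL h1]
  constructor
  · intro h1
    exact Pool.Agent.H52.DT.art_mem_congr hC _ _ e.symm (fun x y => by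
      rw [← key, e.apply_symm_apply, e.apply_symm_apply]) h1
  · intro h1
    exact Pool.Agent.H52.DT.art_mem_congr hC _ _ e key h1

theorem ex_lab (c : Ex) (x y : ℕ) : c.lab x y ≠ 1 := by
  cases c <;> simp only [Ex.lab, lbr] <;> split_ifs <;> omega

/-- the exceptional diagrams -/
def exM (c : Ex) : CoxeterMatrix (Fin c.num) := tyM c.num c.lab (ex_lab c)

theorem ex_mem {C : (G : Type) → [Group G] → Prop} (hC : Inherits C) {B : Type} {M : CoxeterMatrix B} {T : Finset B}
    (c : Ex) (h : IsTy M T c.num c.lab) : C (Art (exM c)) ↔ C (Art (rst M T)) := ty_mem hC (ex_lab c) h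

end Pool.Agent.H98.CD
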